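import Pool.Agent.V1141.FD.Comb
import Pool.Agent.H485R3.Exact.ExoticMain
import Pool.Agent.W517.K3.Fld

/-!
# Multiplicative relations between Weil numbers of several weights and their slopes
-/

set_option autoImplicit false
set_option linter.unusedSectionVars false

namespace Pool.Agent.V1141.FD

open NumberField Polynomial Pool.Agent.H485R3

variable {L : Type} [Field L] [Algebra ℚ L] [FiniteDimensional ℚ L] [IsGalois ℚ L]
  {p : ℕ} [Fact p.Prime] {Λ : Type} [Fintype Λ]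

/-- Roots of monic integral polynomials, with weights, and slopes in `(1 / m) ℤ`. -/
structure Dat (p : ℕ) [Fact p.Prime] (m : ℕ) (e : L →ₐ[ℚ] PadicAlgCl p) (β : Λ → L)
    (w ex : Λ → ℕ) : Prop where
  mpos : 0 < m
  epos : ∀ x, 0 < ex x
  poly : ∀ x, ∃ P : ℤ[X], P.Monic ∧ aeval (β x) P = 0 ∧
    (∀ z : ℂ, aeval z P = 0 → ‖z‖ ^ 2 = ((p : ℝ) ^ ex x) ^ w x)
  slope : ∀ x, ∀ g : L ≃ₐ[ℚ] L, ∃ a : ℤ, ‖e (g (β x))‖ ^ m = ((p : ℝ) ^ ex x) ^ (-a)

variable {m : ℕ} {e : L →ₐ[ℚ] PadicAlgCl p} {β : Λ → L} {w ex : Λ → ℕ}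

namespace Dat

variable (D : Dat p m e β w ex)
include D

lemma isIntegral (x : Λ) : IsIntegral ℤ (β x) := by
  obtain ⟨P, hP, h, -⟩ := D.poly x
  exact ⟨P, hP, by rwa [← aeval_def]⟩

lemma norm_sq (x : Λ) (ψ : L →ₐ[ℚ] ℂ) : ‖ψ (β x)‖ ^ 2 = ((p : ℝ) ^ ex x) ^ w x := by
  obtain ⟨P, -, h, hP⟩ := D.poly x
  refine hP _ ?_
  have h1 := congrArg ψ h
  rw [map_zero] at h1
  rw [← h1]
  exact (aeval_algHom_apply (ψ.restrictScalars ℤ) (β x) P)

lemma ne_zero (x : Λ) : β x ≠ 0 := by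
  intro h
  have ψ : L →ₐ[ℚ] ℂ := IsAlgClosed.lift
  have h1 := D.norm_sq x ψ
  rw [h, map_zero, norm_zero, zero_pow two_ne_zero] at h1
  exact pow_ne_zero _ (pow_ne_zero _ (Nat.cast_ne_zero.2 (Fact.out : p.Prime).ne_zero)) h1.symm

/-- the complex conjugate is integral -/
lemma isIntegral_conj (x : Λ) : IsIntegral ℤ (((p : L) ^ ex x) ^ w x / β x) := by
  obtain ⟨P, hP, h, habs⟩ := D.poly x
  refine ⟨P, hP, ?_⟩
  rw [← aeval_def]
  have ψ : L →ₐ[ℚ] ℂ := IsAlgClosed.lift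
  have h0 : aeval (ψ (β x)) P = 0 := by
    have h1 := congrArg ψ h
    rw [map_zero] at h1
    rw [← h1]
    exact (aeval_algHom_apply (ψ.restrictScalars ℤ) (β x) P)
  refine (map_eq_zero ψ).1 ?_
  have h1 : ψ (aeval (((p : L) ^ ex x) ^ w x / β x) P) =
      aeval (ψ (((p : L) ^ ex x) ^ w x / β x)) P :=
    (aeval_algHom_apply (ψ.restrictScalars ℤ) _ P).symm
  have hne : ψ (β x) ≠ 0 := (map_ne_zero ψ).2 (D.ne_zero x)
  have h2 : ψ (((p : L) ^ ex x) ^ w x / β x) = (starRingEnd ℂ) (ψ (β x)) := by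
    rw [map_div₀, div_eq_iff hne, mul_comm, Complex.mul_conj, Complex.normSq_eq_norm_sq,
      D.norm_sq x ψ, map_pow, map_pow, map_natCast]
    push_cast
    rfl
  rw [h1, h2]
  have h3 : aeval ((starRingEnd ℂ) (ψ (β x))) P = (starRingEnd ℂ) (aeval (ψ (β x)) P) := by
    rw [aeval_def, aeval_def, Polynomial.hom_eval₂]
    congr 1
    exact Subsingleton.elim _ _
  rw [h3, h0, map_zero]

/-- the exponent -/
noncomputable def sl (x : Λ) (g : L ≃ₐ[ℚ] L) : ℤ := (D.slope x g).choose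

lemma sl_spec (x : Λ) (g : L ≃ₐ[ℚ] L) :
    ‖e (g (β x))‖ ^ m = ((p : ℝ) ^ ex x) ^ (-(D.sl x g)) := (D.slope x g).choose_spec

lemma one_lt (x : Λ) : (1 : ℝ) < (p : ℝ) ^ ex x :=
  one_lt_pow₀ (by exact_mod_cast (Fact.out : p.Prime).one_lt) (D.epos x).ne'

lemma sl_nonneg (x : Λ) (g : L ≃ₐ[ℚ] L) : 0 ≤ D.sl x g := by
  have h1 : ‖e (g (β x))‖ ≤ 1 := norm_le_one_of_isIntegral p _
    (((D.isIntegral x).map (g.toAlgHom.restrictScalars ℤ)).map (e.restrictScalars ℤ))
  have h2 := pow_le_one₀ (n := m) (norm_nonneg _) h1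
  rw [D.sl_spec] at h2
  by_contra hcon
  push Not at hcon
  exact absurd h2 (not_le.2 (one_lt_zpow₀ (D.one_lt x) (by omega)))

lemma sl_le (x : Λ) (g : L ≃ₐ[ℚ] L) : D.sl x g ≤ m * w x := by
  have h1 : ‖e (g (((p : L) ^ ex x) ^ w x / β x))‖ ≤ 1 := norm_le_one_of_isIntegral p _
    (((D.isIntegral_conj x).map (g.toAlgHom.restrictScalars ℤ)).map (e.restrictScalars ℤ))
  have hpn : ‖(p : PadicAlgCl p)‖ = (p : ℝ)⁻¹ := by
    have h4 : (p : PadicAlgCl p) = algebraMap ℚ_[p] (PadicAlgCl p) (p : ℚ_[p]) := by simp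
    rw [h4, PadicAlgCl.norm_extends, Padic.norm_p]
  rw [map_div₀, map_div₀, map_pow, map_pow, map_pow, map_pow, map_natCast, map_natCast, norm_div,
    norm_pow, norm_pow, hpn, inv_pow, inv_pow] at h1
  have h2 := pow_le_one₀ (n := m) (by positivity) h1
  rw [div_pow, D.sl_spec] at h2
  have hq := D.one_lt x
  have hq0 : (0 : ℝ) < (p : ℝ) ^ ex x := by linarith
  rw [inv_pow, ← pow_mul, div_le_one (zpow_pos hq0 _), ← zpow_natCast, ← zpow_neg,
    zpow_le_zpow_iff_right₀ hq] at h2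
  push_cast at h2
  nlinarith

/-- the coefficients of the linear equations -/
noncomputable def coef (g : L ≃ₐ[ℚ] L) (x : Λ) : ℤ := 2 * D.sl x g - m * w x

lemma abs_coef {d : ℕ} (hd : ∀ x, w x ≤ d) (g : L ≃ₐ[ℚ] L) (x : Λ) :
    |D.coef g x| ≤ (m * d : ℕ) := by
  have h1 := D.sl_nonneg x g
  have h2 := D.sl_le x g
  have h3 : ((m * w x : ℕ) : ℤ) ≤ (m * d : ℕ) := by exact_mod_cast Nat.mul_le_mul_left m (hd x)
  push_cast at h3 ⊢
  rw [coef, abs_le]
  constructor <;> linarith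

lemma norm_p : ‖(p : PadicAlgCl p)‖ = (p : ℝ)⁻¹ := by
  have h4 : (p : PadicAlgCl p) = algebraMap ℚ_[p] (PadicAlgCl p) (p : ℚ_[p]) := by simp
  rw [h4, PadicAlgCl.norm_extends, Padic.norm_p]

lemma log_pos : 0 < Real.log p :=
  Real.log_pos (by exact_mod_cast (Fact.out : p.Prime).one_lt)

/-- complex absolute values -/
lemma log_abs (x : Λ) (ψ : L →ₐ[ℚ] ℂ) :
    2 * Real.log ‖ψ (β x)‖ = ex x * w x * Real.log p := by
  have h1 := congrArg Real.log (D.norm_sq x ψ)
  rw [Real.log_pow, Real.log_pow, Real.log_pow] at h1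
  push_cast at h1
  linarith

/-- `p`-adic absolute values -/
lemma log_slope (x : Λ) (g : L ≃ₐ[ℚ] L) :
    m * Real.log ‖e (g (β x))‖ = - (D.sl x g * ex x * Real.log p) := by
  have h1 := congrArg Real.log (D.sl_spec x g)
  rw [Real.log_pow, Real.log_zpow, Real.log_pow] at h1
  push_cast at h1
  linarith

omit [Fintype Λ] in
lemma prod_log {B : Finset Λ} {f : Λ → ℝ} {k : Λ → ℕ} (hf : ∀ x, f x ≠ 0) :
    Real.log (∏ x ∈ B, f x ^ k x) = ∑ x ∈ B, k x * Real.log (f x) := by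
  rw [Real.log_prod fun x _ => pow_ne_zero _ (hf x)]
  exact Finset.sum_congr rfl fun x _ => Real.log_pow _ _

/-- a relation gives a solution of the linear equations -/
theorem eqs_of_rel {E : ℕ} (hE : 0 < E) {E' : Λ → ℕ} (hEE : ∀ x, ex x * E' x = E) (n : Λ → ℕ)
    {t j c : ℕ} (ht : 0 < t) (h : (∏ x, β x ^ (E' x * n x)) ^ t * (p : L) ^ (t * E * j) =
      (p : L) ^ (t * E * c)) :
    (∑ x, n x * w x + 2 * j = 2 * c) ∧ ∀ g, ∑ x, D.coef g x * n x = 0 := by
  have hlp := D.log_pos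
  have hp0 : (0 : ℝ) < p := by exact_mod_cast (Fact.out : p.Prime).pos
  have ht' : (0 : ℝ) < t := by exact_mod_cast ht
  have hE' : (0 : ℝ) < E := by exact_mod_cast hE
  have hEE' : ∀ x, (ex x : ℝ) * E' x = E := fun x => by exact_mod_cast hEE x
  have hβ := D.ne_zero
  have hprod : ∀ f : Λ → ℝ, (∀ x, f x ≠ 0) →
      ((∏ x, f x ^ (E' x * n x)) ^ t) ≠ 0 := fun f hf =>
    pow_ne_zero _ (Finset.prod_ne_zero_iff.2 fun x _ => pow_ne_zero _ (hf x))
  have key : ∑ x, n x * w x + 2 * j = 2 * c := by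
    have ψ : L →ₐ[ℚ] ℂ := IsAlgClosed.lift
    have hne : ∀ x, ‖ψ (β x)‖ ≠ 0 := fun x => norm_ne_zero_iff.2 ((map_ne_zero ψ).2 (hβ x))
    have h1 := congrArg (fun z => Real.log ‖ψ z‖) h
    simp only [map_mul, map_pow, map_prod, map_natCast, norm_mul, norm_pow, norm_prod,
      Complex.norm_natCast] at h1
    rw [Real.log_mul (hprod _ hne) (pow_ne_zero _ hp0.ne'), Real.log_pow, Real.log_pow,
      Real.log_pow, D.prod_log hne] at h1
    have h2 : 2 * ∑ x, ((E' x * n x : ℕ) : ℝ) * Real.log ‖ψ (β x)‖ =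
        E * Real.log p * ∑ x, (n x : ℝ) * w x := by
      rw [Finset.mul_sum, Finset.mul_sum]
      refine Finset.sum_congr rfl fun x _ => ?_
      have h3 := D.log_abs x ψ
      rw [← hEE' x]
      push_cast
      calc 2 * ((E' x : ℝ) * n x * Real.log ‖ψ (β x)‖) =
          (E' x : ℝ) * n x * (2 * Real.log ‖ψ (β x)‖) := by ring
        _ = _ := by rw [h3]; ring
    have h3 : (t : ℝ) * E * Real.log p * (∑ x, (n x : ℝ) * w x + 2 * j) =
        (t : ℝ) * E * Real.log p * (2 * c) := by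
      push_cast at h1 h2
      linear_combination 2 * h1 - t * h2
    have h4 := mul_left_cancel₀ (mul_pos (mul_pos ht' hE') hlp).ne' h3
    exact_mod_cast h4
  refine ⟨key, fun g => ?_⟩
  have hne : ∀ x, ‖e (g (β x))‖ ≠ 0 := fun x =>
    norm_ne_zero_iff.2 ((map_ne_zero e).2 ((map_ne_zero g).2 (hβ x)))
  have h1 := congrArg (fun z => Real.log ‖e (g z)‖) h
  simp only [map_mul, map_pow, map_prod, map_natCast, norm_mul, norm_pow, norm_prod,
    D.norm_p] at h1
  rw [Real.log_mul (hprod _ hne) (pow_ne_zero _ (inv_ne_zero hp0.ne')), Real.log_pow, Real.log_pow,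
    Real.log_pow, Real.log_inv, D.prod_log hne] at h1
  have h2 : m * ∑ x, ((E' x * n x : ℕ) : ℝ) * Real.log ‖e (g (β x))‖ =
      - (E * Real.log p * ∑ x, (D.sl x g : ℝ) * n x) := by
    rw [Finset.mul_sum, Finset.mul_sum, ← Finset.sum_neg_distrib]
    refine Finset.sum_congr rfl fun x _ => ?_
    have h3 := D.log_slope x g
    rw [← hEE' x]
    push_cast
    calc (m : ℝ) * ((E' x : ℝ) * n x * Real.log ‖e (g (β x))‖) =
        (E' x : ℝ) * n x * (m * Real.log ‖e (g (β x))‖) := by ring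
      _ = _ := by rw [h3]; ring
  have h3 : (t : ℝ) * E * Real.log p * (∑ x, (D.sl x g : ℝ) * n x + m * j) =
      (t : ℝ) * E * Real.log p * (m * c) := by
    push_cast at h1 h2
    linear_combination (- (m : ℝ)) * h1 + t * h2
  have h4 := mul_left_cancel₀ (mul_pos (mul_pos ht' hE') hlp).ne' h3
  have h5 : ∑ x, D.sl x g * n x + m * j = m * c := by exact_mod_cast h4
  have h6 : ∑ x, D.coef g x * n x = 2 * ∑ x, D.sl x g * n x - m * ∑ x, (n x : ℤ) * w x := by
    rw [Finset.mul_sum, Finset.mul_sum, ← Finset.sum_sub_distrib]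
    refine Finset.sum_congr rfl fun x _ => ?_
    rw [coef]
    ring
  have h7 : ∑ x, (n x : ℤ) * w x + 2 * j = 2 * c := by exact_mod_cast key
  rw [h6]
  linear_combination 2 * h5 - m * h7

/-- units outside `p` -/
lemma norm_eq_one_of_ne (x : Λ) (l : ℕ) [Fact l.Prime] (hl : l ≠ p) (y : L →ₐ[ℚ] PadicAlgCl l) :
    ‖y (β x)‖ = 1 := by
  have h5 : ‖(p : PadicAlgCl l)‖ = 1 := by
    have h4 : (p : PadicAlgCl l) = algebraMap ℚ_[l] (PadicAlgCl l) (p : ℚ_[l]) := by simp
    rw [h4, PadicAlgCl.norm_extends, Padic.norm_natCast_eq_one_iff]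
    exact (Nat.coprime_primes (Fact.out : l.Prime) (Fact.out : p.Prime)).2 hl
  have h1 : ‖y (β x)‖ ≤ 1 := norm_le_one_of_isIntegral l _
    ((D.isIntegral x).map (y.restrictScalars ℤ))
  have h2 : ‖y (((p : L) ^ ex x) ^ w x / β x)‖ ≤ 1 := norm_le_one_of_isIntegral l _
    ((D.isIntegral_conj x).map (y.restrictScalars ℤ))
  have h0 : 0 < ‖y (β x)‖ := norm_pos_iff.2 ((map_ne_zero y).2 (D.ne_zero x))
  rw [map_div₀, map_pow, map_pow, map_natCast, norm_div, norm_pow, norm_pow, h5, one_pow, one_pow,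
    div_le_one h0] at h2
  exact le_antisymm h1 h2

/-- **A solution of the linear equations gives a relation**, up to a root of unity. -/
theorem rel_of_eqs {E : ℕ} {E' : Λ → ℕ} (hEE : ∀ x, ex x * E' x = E) (n : Λ → ℕ)
    (h : ∀ g, ∑ x, D.coef g x * n x = 0) :
    ∃ N : ℕ, 0 < N ∧ (∏ x, β x ^ (2 * (E' x * n x))) ^ N =
      ((p : L) ^ (E * ∑ x, n x * w x)) ^ N := by
  have hlp := D.log_pos
  have hp0 : (0 : ℝ) < p := by exact_mod_cast (Fact.out : p.Prime).pos
  have hpL : (p : L) ≠ 0 := by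
    have : CharZero L := algebraRat.charZero L
    exact_mod_cast (Fact.out : p.Prime).ne_zero
  have hEE' : ∀ x, (ex x : ℝ) * E' x = E := fun x => by exact_mod_cast hEE x
  have hm : (0 : ℝ) < m := by exact_mod_cast D.mpos
  set s := ∑ x, n x * w x with hs
  have hsR : ∑ x, (n x : ℝ) * w x = s := by rw [hs]; push_cast; rfl
  suffices hsuff : ∃ N : ℕ, 0 < N ∧
      ((∏ x, β x ^ (2 * (E' x * n x))) / (p : L) ^ (E * s)) ^ N = 1 by
    obtain ⟨N, hN, h1⟩ := hsuff
    refine ⟨N, hN, ?_⟩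
    rw [div_pow, div_eq_one_iff_eq (pow_ne_zero _ (pow_ne_zero _ hpL))] at h1
    exact h1
  refine Exact.root_of_unity _ ?_ ?_
  · intro l _ e'
    by_cases hl : l = p
    · subst hl
      obtain ⟨g, hg⟩ := Pool.Agent.H485R3.exists_gal e e'
      refine le_of_eq ?_
      have hne : ∀ x, ‖e (g (β x))‖ ≠ 0 := fun x =>
        norm_ne_zero_iff.2 ((map_ne_zero e).2 ((map_ne_zero g).2 (D.ne_zero x)))
      refine Real.eq_one_of_pos_of_log_eq_zero ?_ ?_
      · rw [norm_pos_iff, _root_.map_ne_zero]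
        exact div_ne_zero (Finset.prod_ne_zero_iff.2 fun x _ => pow_ne_zero _ (D.ne_zero x))
          (pow_ne_zero _ hpL)
      · rw [hg]
        simp only [map_div₀, map_pow, map_prod, map_natCast, norm_div, norm_pow, norm_prod,
          D.norm_p]
        rw [Real.log_div (Finset.prod_ne_zero_iff.2 fun x _ => pow_ne_zero _ (hne x))
          (pow_ne_zero _ (inv_ne_zero hp0.ne')), Real.log_pow, Real.log_inv, D.prod_log hne]
        have h2 : m * ∑ x, ((2 * (E' x * n x) : ℕ) : ℝ) * Real.log ‖e (g (β x))‖ =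
            - (E * Real.log l * (2 * ∑ x, (D.sl x g : ℝ) * n x)) := by
          rw [Finset.mul_sum, Finset.mul_sum, Finset.mul_sum, ← Finset.sum_neg_distrib]
          refine Finset.sum_congr rfl fun x _ => ?_
          have h3 := D.log_slope x g
          rw [← hEE' x]
          push_cast
          calc (m : ℝ) * (2 * ((E' x : ℝ) * n x) * Real.log ‖e (g (β x))‖) =
              2 * ((E' x : ℝ) * n x) * (m * Real.log ‖e (g (β x))‖) := by ring
            _ = _ := by rw [h3]; ring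
        have h6 : ∑ x, D.coef g x * n x = 2 * ∑ x, D.sl x g * n x - m * ∑ x, (n x : ℤ) * w x := by
          rw [Finset.mul_sum, Finset.mul_sum, ← Finset.sum_sub_distrib]
          refine Finset.sum_congr rfl fun x _ => ?_
          rw [coef]
          ring
        have h7 : (2 : ℝ) * ∑ x, (D.sl x g : ℝ) * n x = m * s := by
          rw [h g] at h6
          rw [← hsR]
          have h8 : (2 : ℤ) * ∑ x, D.sl x g * n x = m * ∑ x, (n x : ℤ) * w x := by linarith
          exact_mod_cast h8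
        have h9 : (m : ℝ) * (∑ x, ((2 * (E' x * n x) : ℕ) : ℝ) * Real.log ‖e (g (β x))‖ -
            ((E * s : ℕ) : ℝ) * -Real.log l) = m * 0 := by
          rw [mul_sub, h2, h7]
          push_cast
          ring
        exact mul_left_cancel₀ hm.ne' h9
    · refine le_of_eq ?_
      have h5 : ‖(p : PadicAlgCl l)‖ = 1 := by
        have h4 : (p : PadicAlgCl l) = algebraMap ℚ_[l] (PadicAlgCl l) (p : ℚ_[l]) := by simp
        rw [h4, PadicAlgCl.norm_extends, Padic.norm_natCast_eq_one_iff]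
        exact (Nat.coprime_primes (Fact.out : l.Prime) (Fact.out : p.Prime)).2 hl
      simp only [map_div₀, map_pow, map_prod, map_natCast, norm_div, norm_pow, norm_prod, h5,
        one_pow, div_one]
      exact Finset.prod_eq_one fun x _ => by rw [D.norm_eq_one_of_ne x l hl e', one_pow]
  · intro ψ
    have hne : ∀ x, ‖ψ (β x)‖ ≠ 0 := fun x =>
      norm_ne_zero_iff.2 ((map_ne_zero ψ).2 (D.ne_zero x))
    refine Real.eq_one_of_pos_of_log_eq_zero ?_ ?_
    · rw [norm_pos_iff, _root_.map_ne_zero]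
      exact div_ne_zero (Finset.prod_ne_zero_iff.2 fun x _ => pow_ne_zero _ (D.ne_zero x))
        (pow_ne_zero _ hpL)
    · simp only [map_div₀, map_pow, map_prod, map_natCast, norm_div, norm_pow, norm_prod,
        Complex.norm_natCast]
      rw [Real.log_div (Finset.prod_ne_zero_iff.2 fun x _ => pow_ne_zero _ (hne x))
        (pow_ne_zero _ hp0.ne'), Real.log_pow, D.prod_log hne, sub_eq_zero]
      have h2 : ∑ x, ((2 * (E' x * n x) : ℕ) : ℝ) * Real.log ‖ψ (β x)‖ =
          E * Real.log p * ∑ x, (n x : ℝ) * w x := by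
        rw [Finset.mul_sum]
        refine Finset.sum_congr rfl fun x _ => ?_
        have h3 := D.log_abs x ψ
        rw [← hEE' x]
        push_cast
        calc 2 * ((E' x : ℝ) * n x) * Real.log ‖ψ (β x)‖ =
            (E' x : ℝ) * n x * (2 * Real.log ‖ψ (β x)‖) := by ring
          _ = _ := by rw [h3]; ring
      rw [h2, hsR]
      push_cast
      ring

end Dat

end Pool.Agent.V1141.FD
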