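import Mathlib

/-!
# Small solutions below large solutions of linear systems
-/

set_option autoImplicit false

namespace Pool.Agent.V1141.FD

open Finset

variable {G Λ : Type*} [Fintype Λ]

/-- The bound for the size of the small solutions. -/
def bound (b M : ℕ) : ℕ := b * (2 * (2 * b * M + 1) ^ b)

/-- finitely many equations are enough -/
lemma exists_rows [DecidableEq Λ] (A : G → Λ → ℤ) : ∃ S : Finset G, S.card ≤ Fintype.card Λ ∧
    ∀ y : Λ → ℤ, (∀ g ∈ S, ∑ x, A g x * y x = 0) → ∀ g, ∑ x, A g x * y x = 0 := by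
  classical
  rcases isEmpty_or_nonempty G with hG | hG
  · exact ⟨∅, Nat.zero_le _, fun y _ g => hG.elim g⟩
  let B : G → (Λ → ℚ) := fun g x => (A g x : ℚ)
  obtain ⟨b, hb, hspan, hli⟩ := exists_linearIndependent ℚ (Set.range B)
  have hfin : b.Finite := hli.setFinite
  have : Fintype b := hfin.fintype
  have hcard : Fintype.card b ≤ Fintype.card Λ := by
    have h1 := hli.fintype_card_le_finrank
    rwa [Module.finrank_fintype_fun_eq_card] at h1
  choose! f hf using fun (v : Λ → ℚ) (hv : v ∈ Set.range B) => hv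
  refine ⟨hfin.toFinset.image f, ?_, ?_⟩
  · refine card_image_le.trans ?_
    rw [Set.Finite.card_toFinset]
    exact hcard
  · intro y hy g
    let ψ : (Λ → ℚ) →ₗ[ℚ] ℚ :=
      { toFun := fun v => ∑ x, v x * (y x : ℚ)
        map_add' := fun v w => by
          rw [← sum_add_distrib]
          exact sum_congr rfl fun x _ => by rw [Pi.add_apply]; ring
        map_smul' := fun c v => by
          rw [RingHom.id_apply, smul_eq_mul, mul_sum]
          exact sum_congr rfl fun x _ => by rw [Pi.smul_apply, smul_eq_mul]; ring }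
    have hψ : ∀ g, ψ (B g) = ((∑ x, A g x * y x : ℤ) : ℚ) := by
      intro g
      change ∑ x, (A g x : ℚ) * (y x : ℚ) = _
      push_cast
      rfl
    have h1 : Submodule.span ℚ b ≤ LinearMap.ker ψ := by
      rw [Submodule.span_le]
      intro v hv
      have h2 := hf v (hb hv)
      rw [SetLike.mem_coe, LinearMap.mem_ker, ← h2, hψ, hy (f v) (mem_image_of_mem f (by simpa using hv))]
      simp
    have h2 : B g ∈ Submodule.span ℚ b := by
      rw [hspan]
      exact Submodule.subset_span ⟨g, rfl⟩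
    have h3 := h1 h2
    rw [LinearMap.mem_ker, hψ] at h3
    exact_mod_cast h3

/-- **Small solutions below large solutions.** Let `A` be an integral matrix with `b` columns and
entries of absolute value at most `M`, and `n` a solution with natural coefficients, of even weight,
whose sum is greater than `bound b M`. Then there is a nonzero solution `n' ≤ n` of even weight
whose sum is at most `bound b M`. -/
theorem exists_small (A : G → Λ → ℤ) {M : ℕ} (hA : ∀ g x, |A g x| ≤ M) (w : Λ → ℕ) (n : Λ → ℕ)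
    (hn : ∀ g, ∑ x, A g x * n x = 0) (hbig : bound (Fintype.card Λ) M < ∑ x, n x) :
    ∃ n' : Λ → ℕ, (∀ x, n' x ≤ n x) ∧ 0 < ∑ x, n' x ∧
      ∑ x, n' x ≤ bound (Fintype.card Λ) M ∧ (∀ g, ∑ x, A g x * n' x = 0) ∧
      Even (∑ x, n' x * w x) := by
  classical
  set b := Fintype.card Λ with hb
  set K := 2 * (2 * b * M + 1) ^ b with hK
  have hbK : bound b M = b * K := rfl
  -- the largest coefficient
  have hne : Nonempty Λ := by
    by_contra hcon
    rw [not_nonempty_iff] at hcon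
    rw [sum_eq_zero fun x _ => (hcon.false x).elim] at hbig
    exact absurd hbig (Nat.not_lt_zero _)
  obtain ⟨x₀, -, hx₀⟩ := exists_max_image (univ : Finset Λ) n univ_nonempty
  set N := n x₀ with hN
  have hNK : K < N := by
    by_contra hcon
    push Not at hcon
    have h1 : ∑ x, n x ≤ ∑ _x : Λ, K := sum_le_sum fun x hx => (hx₀ x hx).trans hcon
    rw [sum_const, card_univ, smul_eq_mul, ← hb, ← hbK] at h1
    omega
  have hN0 : 0 < N := by omega
  -- the approximations
  let y : ℕ → Λ → ℕ := fun k x => k * n x / N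
  have hyx₀ : ∀ k, y k x₀ = k := fun k => Nat.mul_div_cancel k hN0
  have hyk : ∀ k x, y k x ≤ k := by
    intro k x
    refine Nat.div_le_of_le_mul ?_
    rw [mul_comm N k]
    exact Nat.mul_le_mul_left k (hx₀ x (mem_univ x))
  have hmono : ∀ k k', k ≤ k' → ∀ x, y k x ≤ y k' x := fun k k' h x =>
    Nat.div_le_div_right (Nat.mul_le_mul_right _ h)
  have hyn : ∀ k ≤ N, ∀ x, y k x ≤ n x := by
    intro k hk x
    refine Nat.div_le_of_le_mul ?_
    exact Nat.mul_le_mul_right _ hk
  have hval : ∀ k g, |∑ x, A g x * (y k x : ℤ)| ≤ (b * M : ℕ) := by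
    intro k g
    have h1 : (N : ℤ) * ∑ x, A g x * (y k x : ℤ) = - ∑ x, A g x * ((k * n x % N : ℕ) : ℤ) := by
      have h2 : ∀ x, (N : ℤ) * (y k x : ℤ) = (k : ℤ) * n x - ((k * n x % N : ℕ) : ℤ) := by
        intro x
        have h3 := Nat.div_add_mod (k * n x) N
        have h4 : (N : ℤ) * ((k * n x / N : ℕ) : ℤ) + ((k * n x % N : ℕ) : ℤ) = (k : ℤ) * n x := by
          exact_mod_cast h3
        linarith
      have h3 : ∀ x, (N : ℤ) * (A g x * (y k x : ℤ)) =
          (k : ℤ) * (A g x * n x) - A g x * ((k * n x % N : ℕ) : ℤ) := by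
        intro x
        calc (N : ℤ) * (A g x * (y k x : ℤ)) = A g x * ((N : ℤ) * (y k x : ℤ)) := by ring
          _ = _ := by rw [h2]; ring
      rw [mul_sum, sum_congr rfl fun x _ => h3 x, sum_sub_distrib, ← mul_sum, hn g]
      ring
    have h2 : |∑ x, A g x * ((k * n x % N : ℕ) : ℤ)| ≤ (N : ℤ) * (b * M : ℕ) := by
      refine (abs_sum_le_sum_abs _ _).trans ?_
      have h3 : ∀ x ∈ (univ : Finset Λ), |A g x * ((k * n x % N : ℕ) : ℤ)| ≤ (M : ℤ) * N := by
        intro x _
        rw [abs_mul]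
        refine mul_le_mul (hA g x) ?_ (abs_nonneg _) (Int.natCast_nonneg _)
        rw [Nat.abs_cast]
        exact_mod_cast (Nat.mod_lt _ hN0).le
      refine (sum_le_sum h3).trans ?_
      rw [sum_const, card_univ, ← hb, nsmul_eq_mul]
      push_cast
      exact le_of_eq (by ring)
    have h3 : (N : ℤ) * |∑ x, A g x * (y k x : ℤ)| ≤ (N : ℤ) * (b * M : ℕ) := by
      rw [← Nat.abs_cast N, ← abs_mul, h1, abs_neg, Nat.abs_cast]
      exact h2
    exact le_of_mul_le_mul_left h3 (by exact_mod_cast hN0)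
  -- the pigeonhole principle
  obtain ⟨S, hS, hrows⟩ := exists_rows A
  let I : Finset ℤ := Icc (-(b * M : ℕ) : ℤ) (b * M : ℕ)
  let F : Fin (K + 1) → (S → I) × ZMod 2 := fun k =>
    (fun g => ⟨∑ x, A g x * (y k x : ℤ), by
      rw [mem_Icc, ← abs_le]
      exact hval k g⟩, ((∑ x, y k x * w x : ℕ) : ZMod 2))
  have hIcard : I.card = 2 * b * M + 1 := by
    rw [Int.card_Icc]
    push_cast
    have : ((b : ℤ) * M + 1 - -((b : ℤ) * M)) = ((2 * b * M + 1 : ℕ) : ℤ) := by
      push_cast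
      ring
    rw [this, Int.toNat_natCast]
  have hcard : Fintype.card ((S → I) × ZMod 2) < Fintype.card (Fin (K + 1)) := by
    rw [Fintype.card_prod, Fintype.card_fun, Fintype.card_coe, Fintype.card_coe, hIcard,
      ZMod.card, Fintype.card_fin, Nat.lt_succ_iff, hK, mul_comm]
    refine Nat.mul_le_mul_left 2 ?_
    exact Nat.pow_le_pow_right (Nat.succ_pos _) hS
  obtain ⟨k₁, k₂, hne', hF⟩ := Fintype.exists_ne_map_eq_of_card_lt F hcard
  wlog hlt : k₁ < k₂ generalizing k₁ k₂
  · exact this k₂ k₁ hne'.symm hF.symm (lt_of_le_of_ne (not_lt.1 hlt) hne'.symm)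
  have hlt' : (k₁ : ℕ) < k₂ := hlt
  have hk₂ : (k₂ : ℕ) ≤ K := Nat.lt_succ_iff.1 k₂.2
  have hle : ∀ x, y k₁ x ≤ y k₂ x := hmono _ _ hlt'.le
  refine ⟨fun x => y k₂ x - y k₁ x, fun x => ?_, ?_, ?_, ?_, ?_⟩
  · exact (Nat.sub_le _ _).trans (hyn _ (hk₂.trans hNK.le) x)
  · refine sum_pos' (fun x _ => Nat.zero_le _) ⟨x₀, mem_univ _, ?_⟩
    rw [hyx₀, hyx₀]
    omega
  · have h1 : ∑ x, (y k₂ x - y k₁ x) ≤ ∑ _x : Λ, K :=
      sum_le_sum fun x _ => (Nat.sub_le _ _).trans ((hyk _ x).trans hk₂)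
    rwa [sum_const, card_univ, smul_eq_mul, ← hb, ← hbK] at h1
  · have h2 : ∀ g, ∑ x, A g x * ((y k₂ x - y k₁ x : ℕ) : ℤ) =
        ∑ x, A g x * (y k₂ x : ℤ) - ∑ x, A g x * (y k₁ x : ℤ) := by
      intro g
      rw [← sum_sub_distrib]
      refine sum_congr rfl fun x _ => ?_
      rw [Nat.cast_sub (hle x)]
      ring
    refine hrows (fun x => ((y k₂ x - y k₁ x : ℕ) : ℤ)) fun g hg => ?_
    rw [h2]
    have h1 := congrArg Subtype.val (congrFun (congrArg Prod.fst hF) ⟨g, hg⟩)
    change ∑ x, A g x * (y k₁ x : ℤ) = ∑ x, A g x * (y k₂ x : ℤ) at h1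
    rw [h1, sub_self]
  · have h1 : ((∑ x, y k₁ x * w x : ℕ) : ZMod 2) = ((∑ x, y k₂ x * w x : ℕ) : ZMod 2) :=
      congrArg Prod.snd hF
    have h2 : ∑ x, (y k₂ x - y k₁ x) * w x + ∑ x, y k₁ x * w x = ∑ x, y k₂ x * w x := by
      rw [← sum_add_distrib]
      refine sum_congr rfl fun x _ => ?_
      rw [← add_mul, Nat.sub_add_cancel (hle x)]
    rw [← ZMod.natCast_eq_zero_iff_even]
    have h3 := congrArg (fun m : ℕ => (m : ZMod 2)) h2
    simp only [Nat.cast_add] at h3
    rw [h1] at h3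
    exact add_eq_right.1 h3

end Pool.Agent.V1141.FD
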