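import Pool.Agent.TH121.KT.WordDefs

/-!
# Products with few factors
-/

set_option autoImplicit false

open CategoryTheory AlgebraicGeometry Polynomial

universe u v

namespace Pool.Agent.V1141.FD

open Pool.Agent.H914 Pool.Agent.W534 VarClass Obj WeilCohomology

/-- The product `X i × X j × X k × …`, for the index `i` and the list `[j, k, …]`. -/
noncomputable def prodList {k : Type u} [Field k] {𝒱 : VarClass k} {r : ℕ} (X : Fin r → 𝒱.Obj) :
    Fin r → List (Fin r) → 𝒱.Obj
  | i, [] => X i
  | i, j :: L => (X i).prod (prodList X j L)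

/-- For all `j`, the eigenvalues of the Frobenius endomorphism of `X` over the field with
`q = p ^ Φ.e X` elements on `H^j(X)` are roots of a monic polynomial `P` with integral
coefficients, all of whose complex roots have absolute value `q ^ (j / 2)` (the theorem of Deligne),
and all of whose roots in the algebraic closure of `ℚ_p` have a slope (valuation, with the value one
for `q`) in `(1 / m) ℤ`. -/
def HasSlopesIn {k : Type u} [Field k] {𝒱 : VarClass k} {ops : CycleOps 𝒱}
    {W : WeilCohomology.{u, v} ops} {p : ℕ} [Fact p.Prime] (Φ : FrobSystem W p) (m : ℕ)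
    (X : 𝒱.Obj) : Prop :=
  ∀ j : ℕ, ∃ P : ℤ[X], P.Monic ∧
    (∀ (μ : W.K) (x : W.H X), x ∈ W.gr X j → x ≠ 0 → W.map (Φ.Fr X) x = μ • x →
      aeval μ P = 0) ∧
    (∀ z : ℂ, aeval z P = 0 → ‖z‖ ^ 2 = ((p : ℝ) ^ Φ.e X) ^ j) ∧
    ∀ z : PadicAlgCl p, aeval z P = 0 → ∃ a : ℤ, ‖z‖ ^ m = ((p : ℝ) ^ Φ.e X) ^ (-a)

/-- The number of factors which is sufficient for varieties with sum of the Betti numbers `b`,
dimensions at most `d`, and slopes in `(1 / m) ℤ`. -/
def enough (b d m : ℕ) : ℕ := b * (2 * (4 * b * d * m + 1) ^ b)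

end Pool.Agent.V1141.FD
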