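import Pool.Agent.V1141.FD.Final
import Pool.Agent.W534.PoleD
import Pool.Agent.Y103.Hk.Cls

/-!
# Few factors are enough: all varieties
-/

set_option autoImplicit false
set_option linter.unusedSectionVars false

open CategoryTheory AlgebraicGeometry Polynomial

universe u v

namespace Pool.Agent.V1141.FD

open Pool.Agent.H914 Pool.Agent.H914.VarClass Pool.Agent.H914.VarClass.Obj
  Pool.Agent.H914.WeilCohomology Pool.Agent.W534 Pool.Agent.TH121.KT Pool.Agent.Y103.Hk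

section slopes

variable {p : ℕ} [Fact p.Prime]

lemma slope_mul {z : PadicAlgCl p} {e m : ℕ} {a : ℤ} (h : ‖z‖ ^ m = ((p : ℝ) ^ e) ^ (-a)) (t : ℕ) :
    ∃ b : ℤ, ‖z‖ ^ (m * t) = ((p : ℝ) ^ e) ^ (-b) :=
  ⟨a * t, by rw [pow_mul, h, ← zpow_natCast (((p : ℝ) ^ e) ^ (-a)) t, ← zpow_mul, neg_mul]⟩

lemma exists_slope {z : PadicAlgCl p} (hz : z ≠ 0) {e : ℕ} (he : 0 < e) :
    ∃ m : ℕ, 0 < m ∧ ∃ a : ℤ, ‖z‖ ^ m = ((p : ℝ) ^ e) ^ (-a) := by
  have hint : IsIntegral ℚ_[p] z := Algebra.IsIntegral.isIntegral z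
  set n := (minpoly ℚ_[p] z).natDegree with hn
  have hn0 : 0 < n := minpoly.natDegree_pos hint
  have hc : (minpoly ℚ_[p] z).coeff 0 ≠ 0 := minpoly.coeff_zero_ne_zero hint hz
  have h1 := spectralNorm.spectralNorm_eq_norm_coeff_zero_rpow (K := ℚ_[p]) (L := PadicAlgCl p) z
  rw [PadicAlgCl.spectralNorm_eq, Padic.norm_eq_zpow_neg_valuation hc] at h1
  refine ⟨n * e, Nat.mul_pos hn0 he, ((minpoly ℚ_[p] z).coeff 0).valuation, ?_⟩
  have h2 : ‖z‖ ^ n = (p : ℝ) ^ (-((minpoly ℚ_[p] z).coeff 0).valuation) := by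
    rw [h1, ← Real.rpow_natCast, ← Real.rpow_mul (by positivity), one_div, ← hn,
      inv_mul_cancel₀ (by exact_mod_cast hn0.ne'), Real.rpow_one]
  rw [pow_mul, h2, ← zpow_natCast ((p : ℝ) ^ _) e, ← zpow_mul, ← zpow_natCast (p : ℝ) e,
    ← zpow_mul, mul_comm]

lemma exists_slopes {P : ℤ[X]} (hP : P.Monic) (h0 : ∀ z : PadicAlgCl p, aeval z P = 0 → z ≠ 0)
    {e : ℕ} (he : 0 < e) : ∃ m : ℕ, 0 < m ∧ ∀ z : PadicAlgCl p, aeval z P = 0 →
      ∃ a : ℤ, ‖z‖ ^ m = ((p : ℝ) ^ e) ^ (-a) := by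
  classical
  have h1 : ∀ z : PadicAlgCl p, ∃ m : ℕ, 0 < m ∧ (aeval z P = 0 →
      ∃ a : ℤ, ‖z‖ ^ m = ((p : ℝ) ^ e) ^ (-a)) := by
    intro z
    by_cases hz : aeval z P = 0
    · obtain ⟨m, hm, h⟩ := exists_slope (h0 z hz) he
      exact ⟨m, hm, fun _ => h⟩
    · exact ⟨1, one_pos, fun h => absurd h hz⟩
  choose m hm hslope using h1
  refine ⟨∏ z ∈ (P.aroots (PadicAlgCl p)).toFinset, m z, Finset.prod_pos fun z _ => hm z,
    fun z hz => ?_⟩
  have hmem : z ∈ (P.aroots (PadicAlgCl p)).toFinset := by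
    rw [Multiset.mem_toFinset, mem_aroots]
    exact ⟨hP.ne_zero, hz⟩
  obtain ⟨t, ht⟩ := Finset.dvd_prod_of_mem m hmem
  obtain ⟨a, ha⟩ := hslope z hz
  rw [ht]
  exact slope_mul ha t

end slopes

variable {k : Type u} [Field k] {𝒱 : VarClass k} {ops : CycleOps 𝒱}
  {W : WeilCohomology.{u, v} ops} {p : ℕ} {Φ : FrobSystem W p}

/-- For all `j`, the eigenvalues of the Frobenius endomorphism of `X` over the field with
`q = p ^ Φ.e X` elements on `H^j(X)` are roots of a monic polynomial `P` with integral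
coefficients, all of whose complex roots have absolute value `q ^ (j / 2)`. This is the theorem of
Deligne (with `P` the characteristic polynomial). -/
def HasWeights (Φ : FrobSystem W p) (X : 𝒱.Obj) : Prop :=
  ∀ j : ℕ, ∃ P : ℤ[X], P.Monic ∧
    (∀ (μ : W.K) (x : W.H X), x ∈ W.gr X j → x ≠ 0 → W.map (Φ.Fr X) x = μ • x →
      aeval μ P = 0) ∧
    (∀ z : ℂ, aeval z P = 0 → ‖z‖ ^ 2 = ((p : ℝ) ^ Φ.e X) ^ j)

lemma hasSlopesIn_mul [Fact p.Prime] {m : ℕ} {X : 𝒱.Obj} (h : HasSlopesIn Φ m X) (t : ℕ) :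
    HasSlopesIn Φ (m * t) X := by
  intro j
  obtain ⟨P, h1, h2, h3, h4⟩ := h j
  refine ⟨P, h1, h2, h3, fun z hz => ?_⟩
  obtain ⟨a, ha⟩ := h4 z hz
  exact slope_mul ha t

/-- Every variety has slopes in `(1 / m) ℤ` for some `m`. -/
theorem exists_hasSlopesIn [Fact p.Prime] {X : 𝒱.Obj} (h : HasWeights Φ X) :
    ∃ m : ℕ, 0 < m ∧ HasSlopesIn Φ m X := by
  choose P hP hroot habs using h
  have hp0 : (0 : ℝ) < p := by exact_mod_cast (Fact.out : p.Prime).pos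
  have h1 : ∀ j, ∃ m : ℕ, 0 < m ∧ ∀ z : PadicAlgCl p, aeval z (P j) = 0 →
      ∃ a : ℤ, ‖z‖ ^ m = ((p : ℝ) ^ Φ.e X) ^ (-a) := by
    intro j
    refine exists_slopes (hP j) ?_ (Φ.e_pos X)
    rintro z hz rfl
    have h2 : (P j).coeff 0 = 0 := by
      rw [← coeff_zero_eq_aeval_zero'] at hz
      exact_mod_cast (algebraMap ℤ (PadicAlgCl p)).injective_int (by simpa using hz)
    have h3 : aeval (0 : ℂ) (P j) = 0 := by
      rw [← coeff_zero_eq_aeval_zero', h2, map_zero]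
    have h4 := habs j 0 h3
    rw [norm_zero, zero_pow two_ne_zero] at h4
    have h5 : (0 : ℝ) < ((p : ℝ) ^ Φ.e X) ^ j := by positivity
    exact h5.ne h4
  choose m hm hslope using h1
  refine ⟨∏ j ∈ Finset.range (2 * X.dim + 1), m j, Finset.prod_pos fun j _ => hm j, fun j => ?_⟩
  by_cases hj : j < 2 * X.dim + 1
  · refine ⟨P j, hP j, hroot j, habs j, fun z hz => ?_⟩
    obtain ⟨t, ht⟩ := Finset.dvd_prod_of_mem m (Finset.mem_range.2 hj)
    obtain ⟨a, ha⟩ := hslope j z hz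
    rw [ht]
    exact slope_mul ha t
  · refine ⟨1, monic_one, fun μ x hx hx0 _ => ?_, fun z hz => ?_, fun z hz => ?_⟩
    · rw [W.gr_eq_bot X j (by omega)] at hx
      exact absurd ((Submodule.mem_bot _).1 hx) hx0
    · rw [map_one] at hz
      exact absurd hz one_ne_zero
    · rw [map_one] at hz
      exact absurd hz one_ne_zero

variable {r : ℕ} {X : Fin r → 𝒱.Obj}

lemma exists_hasSlopesIn_all [Fact p.Prime] (h : ∀ i, HasWeights Φ (X i)) :
    ∃ m : ℕ, 0 < m ∧ ∀ i, HasSlopesIn Φ m (X i) := by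
  choose m hm hs using fun i => exists_hasSlopesIn (h i)
  refine ⟨∏ i, m i, Finset.prod_pos fun i _ => hm i, fun i => ?_⟩
  obtain ⟨t, ht⟩ := Finset.dvd_prod_of_mem m (Finset.mem_univ i)
  rw [ht]
  exact hasSlopesIn_mul (hs i) t

/-- The Tate conjecture and semisimplicity imply the conjecture D. -/
theorem homIsNum_of_tate {Z : 𝒱.Obj} (h : ∀ c, SemisimpleTateIn Φ Z c) : HomIsNum W Z := by
  intro j hj z hz hnum
  obtain ⟨l, hl⟩ := Nat.exists_eq_add_of_le hj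
  have hl' : Z.dim - j = l := by omega
  rw [hl'] at hnum
  obtain ⟨t, ht, h2⟩ := exists_span_eig Φ Z j
  have horth : ∀ y ∈ spanCycles W Z l, W.tr Z (W.cl _ z * y) = 0 := by
    intro y hy
    induction hy using Submodule.span_induction with
    | mem y hy =>
      obtain ⟨s, hs, w, hw, rfl⟩ := hy
      obtain rfl : s = l := by exact_mod_cast hs
      rw [Pool.Agent.H447.tr_mul_cl hz hw hl.symm, hnum w hw, Rat.cast_zero]
    | zero => rw [mul_zero, map_zero]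
    | add a b _ _ ha hb => rw [mul_add, map_add, ha, hb, add_zero]
    | smul a b _ hb => rw [mul_smul_comm, map_smul, hb, smul_zero]
  exact genTate_nondeg Φ (s := t) hl.symm (mem_genTate_of_eig Φ (W.cl_mem hz)
    (h2 _ (Pool.Agent.H447.mem_span_cl hz))) (fun y hy => horth y (h _ t ht hy))

/-- **Few factors are enough.** -/
theorem main_all [Fact p.Prime] [IsAlgClosed W.K] (X : Fin r → 𝒱.Obj)
    (hX : ∀ i, HasWeights Φ (X i)) :
    ∃ N : ℕ,
      (∀ m d : ℕ, 0 < m → (∀ i, HasSlopesIn Φ m (X i)) → (∀ i, (X i).dim ≤ d) →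
        N ≤ enough (∑ i, Module.finrank W.K (W.H (X i))) d m) ∧
      ∀ (n : Fin r → ℕ) (Z : 𝒱.Obj), IsProductOfCopies W X n Z →
        (∀ (i : Fin r) (I : List (Fin r)), I.length + 1 ≤ N →
          (∀ j, (i :: I).count j ≤ n j) → ∀ c, SemisimpleTateIn Φ (prodList X i I) c) →
        (∀ c, SemisimpleTateIn Φ Z c) ∧ HomIsNum W Z ∧ InjectiveCycleMap W Z := by
  classical
  let S : Set ℕ := {N | ∃ m d : ℕ, 0 < m ∧ (∀ i, HasSlopesIn Φ m (X i)) ∧
    (∀ i, (X i).dim ≤ d) ∧ N = enough (∑ i, Module.finrank W.K (W.H (X i))) d m}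
  have hS : S.Nonempty := by
    obtain ⟨m, hm, hs⟩ := exists_hasSlopesIn_all hX
    exact ⟨_, m, ∑ i, (X i).dim, hm, hs,
      fun i => Finset.single_le_sum (f := fun i => (X i).dim) (fun _ _ => Nat.zero_le _)
        (Finset.mem_univ i), rfl⟩
  refine ⟨sInf S, fun m d hm hs hd => Nat.sInf_le ⟨m, d, hm, hs, hd, rfl⟩, ?_⟩
  obtain ⟨m, d, hm, hs, hd, hN⟩ := Nat.sInf_mem hS
  intro n Z hZ H
  rw [hN] at H
  have h1 := main_few hm hs hd hZ H
  have h2 := homIsNum_of_tate h1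
  exact ⟨h1, h2, injective_of_homEqNum h2⟩

end Pool.Agent.V1141.FD
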