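import Pool.Agent.V1141.FD.Main

/-!
# Few factors are enough: conclusion
-/

set_option autoImplicit false
set_option linter.unusedSectionVars false

open CategoryTheory AlgebraicGeometry Polynomial
open scoped TensorProduct

universe u v

namespace Pool.Agent.V1141.FD

open Pool.Agent.H914 Pool.Agent.H914.VarClass Pool.Agent.H914.VarClass.Obj
  Pool.Agent.H914.WeilCohomology Pool.Agent.H281R3.HT Pool.Agent.W552 Pool.Agent.W534
  Pool.Agent.W458.RK Pool.Agent.W458.MF Pool.Agent.TH132.A Pool.Agent.W536.RR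
  Pool.Agent.TH121.KT

variable {k : Type u} [Field k] {𝒱 : VarClass k} {ops : CycleOps 𝒱}
  {W : WeilCohomology.{u, v} ops} {p : ℕ} [Fact p.Prime] {Φ : FrobSystem W p}
  {r : ℕ} {X : Fin r → 𝒱.Obj}

section span

variable {κ : Fin r → Type} {B : ∀ i, EB Φ (X i) (κ i)} {Z Z' : 𝒱.Obj}

/-- the words with cycles -/
def Words (B : ∀ i, EB Φ (X i) (κ i)) (n : Fin r → ℕ) (Z : 𝒱.Obj) : Set (W.H Z) :=
  {v | ∃ (L : List (Lt B Z)) (j : ℕ) (c : Z.Cycles), Z.IsCyc j c ∧
    (∀ i, (L.map Lt.i).count i ≤ n i) ∧ v = wordVal L * W.cl Z c}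

/-- the words for which the level is good -/
def GoodWords (B : ∀ i, EB Φ (X i) (κ i)) (n : Fin r → ℕ) (Z : 𝒱.Obj) (s : ℕ) : Set (W.H Z) :=
  {v | ∃ (L : List (Lt B Z)) (j : ℕ) (c : Z.Cycles), Z.IsCyc j c ∧
    (∀ i, (L.map Lt.i).count i ≤ n i) ∧ (∀ l ∈ L, l.At s) ∧
    frob Φ Z s (W.cl Z c) = (card Φ Z s : W.K) ^ j • W.cl Z c ∧ v = wordVal L * W.cl Z c}

lemma span_good {n : Fin r → ℕ} {z : W.H Z} (hz : z ∈ Submodule.span W.K (Words B n Z)) :
    ∃ t₀, 0 < t₀ ∧ ∀ t, 0 < t → z ∈ Submodule.span W.K (GoodWords B n Z (t₀ * t)) := by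
  induction hz using Submodule.span_induction with
  | mem v hv =>
    obtain ⟨L, j, c, hc, hn, rfl⟩ := hv
    obtain ⟨a, ha, h⟩ := word_level L
    obtain ⟨b, hb, h1⟩ := Φ.cyc hc
    have h1 : frob Φ Z b (W.cl Z c) = (card Φ Z b : W.K) ^ j • W.cl Z c := by
      rw [card_pow]
      exact h1
    refine ⟨a * b, Nat.mul_pos ha hb, fun t ht => Submodule.subset_span
      ⟨L, j, c, hc, hn, ?_, ?_, rfl⟩⟩
    · rw [mul_assoc]
      exact h (b * t) (Nat.mul_pos hb ht)
    · rw [show a * b * t = b * (a * t) by ring]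
      exact eig_pow h1 (a * t)
  | zero => exact ⟨1, one_pos, fun t _ => Submodule.zero_mem _⟩
  | add x y _ _ hx hy =>
    obtain ⟨a, ha, h⟩ := hx
    obtain ⟨b, hb, h'⟩ := hy
    refine ⟨a * b, Nat.mul_pos ha hb, fun t ht => Submodule.add_mem _ ?_ ?_⟩
    · rw [mul_assoc]
      exact h _ (Nat.mul_pos hb ht)
    · rw [show a * b * t = b * (a * t) by ring]
      exact h' _ (Nat.mul_pos ha ht)
  | smul c x _ hx =>
    obtain ⟨a, ha, h⟩ := hx
    exact ⟨a, ha, fun t ht => Submodule.smul_mem _ _ (h t ht)⟩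

lemma alg_words {n : Fin r → ℕ} {z : W.H Z} (hz : z ∈ algSpan W Z) :
    z ∈ Submodule.span W.K (Words B n Z) := by
  refine algSpan_induction (p := fun z => z ∈ Submodule.span W.K (Words B n Z))
    (Submodule.zero_mem _) (fun a b ha hb => Submodule.add_mem _ ha hb)
    (fun t a ha => Submodule.smul_mem _ _ ha) (fun j c hc => Submodule.subset_span
      ⟨[], j, c, hc, fun i => ?_, ?_⟩) hz
  · rw [List.map_nil, List.count_nil]
    exact Nat.zero_le _
  · rw [wordVal_nil, one_mul]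

/-- the product of words of the factors -/
lemma word_mul {m n : Fin r → ℕ} {Y : 𝒱.Obj} {a : W.H Y} {b : W.H Z}
    (ha : a ∈ Submodule.span W.K (Words B m Y)) (hb : b ∈ Submodule.span W.K (Words B n Z)) :
    W.map (fst Y Z) a * W.map (snd Y Z) b ∈ Submodule.span W.K (Words B (m + n) (Y.prod Z)) := by
  induction ha using Submodule.span_induction with
  | mem v hv =>
    induction hb using Submodule.span_induction with
    | mem u hu =>
      obtain ⟨L, j, c, hc, hn, rfl⟩ := hv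
      obtain ⟨L', j', c', hc', hn', rfl⟩ := hu
      refine Submodule.subset_span ⟨L.map (Lt.pull (fst Y Z)) ++
        L'.map (Lt.pull (snd Y Z)), j + j',
        ops.mul (ops.pull (fst Y Z) c) (ops.pull (snd Y Z) c'),
        ops.mul_mem (ops.pull_mem _ hc) (ops.pull_mem _ hc'), fun i => ?_, ?_⟩
      · rw [List.map_append, List.count_append, List.map_map, List.map_map]
        exact add_le_add (hn i) (hn' i)
      · rw [wordVal_append, wordVal_pull, wordVal_pull, W.cl_mul, W.cl_pull, W.cl_pull, map_mul,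
          map_mul, mul_assoc, ← mul_assoc (W.map (fst Y Z) (W.cl Y c)),
          algSpan_comm (algSpan_map (fst Y Z) (cl_mem_algSpan hc)) (W.map (snd Y Z) (wordVal L'))]
        simp only [mul_assoc]
    | zero => rw [map_zero, mul_zero]; exact Submodule.zero_mem _
    | add x y _ _ hx hy => rw [map_add, mul_add]; exact Submodule.add_mem _ hx hy
    | smul c x _ hx => rw [map_smul, mul_smul_comm]; exact Submodule.smul_mem _ _ hx
  | zero => rw [map_zero, zero_mul]; exact Submodule.zero_mem _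
  | add x y _ _ hx hy => rw [map_add, add_mul]; exact Submodule.add_mem _ hx hy
  | smul c x _ hx => rw [map_smul, smul_mul_assoc]; exact Submodule.smul_mem _ _ hx

/-- **The cohomology of the products is spanned by words.** -/
theorem span_words {n : Fin r → ℕ} (hZ : IsProductOfCopies W X n Z) (z : W.H Z) :
    z ∈ Submodule.span W.K (Words B n Z) := by
  induction hZ with
  | alg h =>
    refine alg_words ?_
    rw [h]
    exact Submodule.mem_top
  | base i =>
    have h1 : z ∈ Submodule.span W.K (Set.range (B i).v) := by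
      rw [(B i).span]
      exact Submodule.mem_top
    refine Submodule.span_mono ?_ h1
    rintro _ ⟨k, rfl⟩
    refine ⟨[⟨i, 𝟙 (X i), k⟩], 0, (X i).V.fundCycle, (X i).V.fundCycle_mem, fun j => ?_, ?_⟩
    · rw [List.map_cons, List.map_nil, List.count_singleton]
      by_cases h : i = j
      · subst h
        simp
      · rw [Pi.single_eq_of_ne (Ne.symm h)]
        simp [h]
    · rw [wordVal_cons, wordVal_nil, mul_one, W.cl_fund, mul_one]
      exact (W.map_id (X i) _).symm
  | prod hY hZ ihY ihZ =>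
    rename_i m n Y Z
    obtain ⟨t, rfl⟩ := (W.kunneth Y Z).2 z
    induction t using TensorProduct.induction_on with
    | zero => rw [map_zero]; exact Submodule.zero_mem _
    | add x y hx hy => rw [map_add]; exact Submodule.add_mem _ hx hy
    | tmul x y => exact word_mul (ihY x) (ihZ y)

variable [∀ i, Fintype (κ i)] {L₀ : Type} [Field L₀] [Algebra ℚ L₀] [FiniteDimensional ℚ L₀]
  [IsGalois ℚ L₀] {m : ℕ} {e : L₀ →ₐ[ℚ] PadicAlgCl p} {β : (Σ i, κ i) → L₀}

/-- the conclusion, for given eigenbases -/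
theorem tate_of_few (D : Dat p m e β (fun x => (B x.1).dg x.2) (fun x => Φ.e (X x.1)))
    (τ : L₀ →+* W.K) (hτ : ∀ x, τ (β x) = (B x.1).ev x.2) {M N : ℕ}
    (hM : ∀ g x, |D.coef g x| ≤ M) (hN : bound (Fintype.card (Σ i, κ i)) M ≤ N)
    {n : Fin r → ℕ} (hZ : IsProductOfCopies W X n Z)
    (H : ∀ (i : Fin r) (I : List (Fin r)), I.length + 1 ≤ N → (∀ j, (i :: I).count j ≤ n j) →
      ∀ c, SemisimpleTateIn Φ (prodList X i I) c) (c : ℕ) : SemisimpleTateIn Φ Z c := by
  intro s hs z hz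
  obtain ⟨hz1, hz2⟩ := hz
  refine spanCycles_of_alg ?_ hz2
  obtain ⟨t₀, ht₀, h0⟩ := span_good (span_words (B := B) hZ z)
  have h1 := h0 s hs
  set T := t₀ * s with hTdef
  have hTpos : 0 < T := Nat.mul_pos ht₀ hs
  have h2 : z ∈ Module.End.maxGenEigenspace (frob Φ Z T) ((card Φ Z T : W.K) ^ c) := by
    have h3 := gen_pow_of_gen hz1 t₀
    have h4 : ((card Φ Z s : W.K) ^ c) ^ t₀ = (card Φ Z T : W.K) ^ c := by
      rw [← pow_mul, card_pow, card_pow]
      congr 1
      rw [hTdef]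
      ring
    rw [h4] at h3
    have h5 : frob Φ Z s ^ t₀ = frob Φ Z T := by
      rw [← frob_mul_eq, mul_comm]
    rw [← h5]
    exact h3
  have heig : ∀ v ∈ GoodWords B n Z T, ∃ ω : W.K, v ∈ (frob Φ Z T).maxGenEigenspace ω := by
    rintro v ⟨L, j, y, hy, hn, hL, hcyc, rfl⟩
    exact ⟨_, gen_mul (T := frob Φ Z T) (T' := frob Φ Z T) (T'' := frob Φ Z T)
      (LinearMap.mul W.K (W.H Z)) (fun x y => frob_mul_apply Φ T x y) (word_gen L hL)
        (eig_mem_gen hcyc)⟩
  have h3 := mem_span_gen (T := frob Φ Z T) heig h1 h2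
  refine (Submodule.span_le (p := algSpan W Z)).2 ?_ h3
  rintro v ⟨⟨L, j, y, hy, hn, hL, hcyc, rfl⟩, hvμ⟩
  by_cases hv0 : wordVal L * W.cl Z y = 0
  · rw [hv0]
    exact Submodule.zero_mem _
  have h4 := gen_mul (T := frob Φ Z T) (T' := frob Φ Z T) (T'' := frob Φ Z T)
      (LinearMap.mul W.K (W.H Z)) (fun x y => frob_mul_apply Φ T x y) (word_gen L hL)
        (eig_mem_gen hcyc)
  have h5 := eq_of_mem_gen h4 hvμ hv0
  have h6 := eigen_pow L hL
  set ω := (L.map fun l => (B l.i).ev l.k ^ lev Φ X Z T l.i).prod with hω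
  have h7 : (∏ x : Σ i, κ i, β x ^ (coE Φ X x.1 * mult L x)) ^ (T * Φ.e Z) *
      (p : L₀) ^ (T * Φ.e Z * totE Φ X * j) = (p : L₀) ^ (T * Φ.e Z * totE Φ X * c) := by
    apply τ.injective
    simp only [map_mul, map_pow, map_prod, hτ, map_natCast]
    rw [← h6]
    have h8 := congrArg (fun x => x ^ totE Φ X) h5
    simp only [mul_pow, card_pow, ← pow_mul] at h8
    rw [show T * Φ.e Z * totE Φ X * j = Φ.e Z * T * j * totE Φ X by ring, h8]
    congr 1
    ring
  obtain ⟨hw, hrel⟩ := D.eqs_of_rel totE_pos (E' := fun x => coE Φ X x.1)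
    (fun x => e_mul_coE x.1) (mult L) (Nat.mul_pos hTpos (Φ.e_pos Z)) h7
  rw [← deg_eq] at hw
  have heven : Even (deg L) := by
    have h8 : Even (deg L + 2 * j) := by
      rw [hw]
      exact even_two_mul c
    exact (Nat.even_add.1 h8).2 (even_two_mul j)
  exact algSpan_mul (word_alg D τ hτ hM hN H L.length L le_rfl hn hrel heven) (cl_mem_algSpan hy)

end span

lemma exists_splitting (F : ℚ[X]) : ∃ (L₀ : Type) (_ : Field L₀) (_ : Algebra ℚ L₀)
    (_ : FiniteDimensional ℚ L₀) (_ : IsGalois ℚ L₀), (F.map (algebraMap ℚ L₀)).Splits := by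
  let a : Algebra ℚ F.SplittingField := Polynomial.SplittingField.instAlgebra_1 F
  have h0 : IsSplittingField ℚ F.SplittingField F := Polynomial.IsSplittingField.splittingField F
  have h1 : Normal ℚ F.SplittingField := Normal.of_isSplittingField F
  have h2 : FiniteDimensional ℚ F.SplittingField :=
    Polynomial.IsSplittingField.finiteDimensional F.SplittingField F
  exact ⟨F.SplittingField, inferInstance, a, h2, ⟨⟩, Polynomial.SplittingField.splits F⟩

/-- **Few factors are enough.** -/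
theorem main_few [IsAlgClosed W.K] {m d : ℕ} (hm : 0 < m) (hX : ∀ i, HasSlopesIn Φ m (X i))
    (hd : ∀ i, (X i).dim ≤ d) {n : Fin r → ℕ} {Z : 𝒱.Obj} (hZ : IsProductOfCopies W X n Z)
    (H : ∀ (i : Fin r) (I : List (Fin r)),
      I.length + 1 ≤ enough (∑ i, Module.finrank W.K (W.H (X i))) d m →
      (∀ j, (i :: I).count j ≤ n j) → ∀ c, SemisimpleTateIn Φ (prodList X i I) c) (c : ℕ) :
    SemisimpleTateIn Φ Z c := by
  classical
  let κ : Fin r → Type := fun i => Fin (Module.finrank W.K (W.H (X i)))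
  let B : ∀ i, EB Φ (X i) (κ i) := fun i => (exists_EB Φ (X i)).some
  choose P hP hroot habs hsl using fun x : Σ i, κ i => hX x.1 ((B x.1).dg x.2)
  have hev : ∀ x : Σ i, κ i, aeval ((B x.1).ev x.2) (P x) = 0 := by
    intro x
    have h1 : (⟨(B x.1).v x.2, (B x.1).gr x.2⟩ : W.gr (X x.1) ((B x.1).dg x.2)) ∈
      (SL.frobGr Φ (X x.1) 1 ((B x.1).dg x.2)).maxGenEigenspace ((B x.1).ev x.2) :=
      SL.gen_frobGr ((B x.1).gen x.2)
    have h2 := hasEigenvalue_of_gen h1 (fun h => (B x.1).ne x.2 (congrArg Subtype.val h))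
    obtain ⟨z, hz⟩ := h2.exists_hasEigenvector
    refine hroot x _ z z.2 (fun h => hz.2 (Subtype.ext h)) ?_
    have h3 := congrArg Subtype.val (Module.End.mem_eigenspace_iff.1 hz.1)
    have h4 : frob Φ (X x.1) 1 (z : W.H (X x.1)) = (B x.1).ev x.2 • (z : W.H (X x.1)) := h3
    rw [frob_pow_eq', pow_one] at h4
    exact h4
  -- the number field
  let f : (Σ i, κ i) → ℚ[X] := fun x => (P x).map (algebraMap ℤ ℚ)
  have hf0 : ∀ x, f x ≠ 0 := fun x => ((hP x).map _).ne_zero
  obtain ⟨L₀, hL1, hL2, hL3, hL4, hL5⟩ := exists_splitting (∏ x, f x)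
  have hsplit : ∀ x, ((f x).map (algebraMap ℚ L₀)).Splits := fun x =>
    hL5.of_dvd ((Polynomial.map_ne_zero_iff (algebraMap ℚ L₀).injective).2
      (Finset.prod_ne_zero_iff.2 fun y _ => hf0 y))
      (Polynomial.map_dvd _ (Finset.dvd_prod_of_mem _ (Finset.mem_univ x)))
  let τ : L₀ →ₐ[ℚ] W.K := IsAlgClosed.lift
  let e : L₀ →ₐ[ℚ] PadicAlgCl p := IsAlgClosed.lift
  have hβ : ∀ x : Σ i, κ i, ∃ b : L₀, aeval b (P x) = 0 ∧ τ b = (B x.1).ev x.2 := by
    intro x
    have h1 : (B x.1).ev x.2 ∈ (f x).rootSet W.K := by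
      rw [Polynomial.mem_rootSet]
      refine ⟨hf0 x, ?_⟩
      rw [Polynomial.aeval_map_algebraMap]
      exact hev x
    rw [← Polynomial.Splits.image_rootSet (hsplit x) τ] at h1
    obtain ⟨b, hb, hb2⟩ := h1
    refine ⟨b, ?_, hb2⟩
    have h2 := (Polynomial.mem_rootSet.1 hb).2
    rwa [Polynomial.aeval_map_algebraMap] at h2
  choose β hβ1 hβ2 using hβ
  have D : Dat p m e β (fun x => (B x.1).dg x.2) (fun x => Φ.e (X x.1)) :=
    { mpos := hm
      epos := fun x => Φ.e_pos _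
      poly := fun x => ⟨P x, hP x, hβ1 x, habs x⟩
      slope := fun x g => hsl x _ (by
        have h1 := Polynomial.aeval_algHom_apply
          (((e.comp (g : L₀ →ₐ[ℚ] L₀)).restrictScalars ℤ)) (β x) (P x)
        rw [hβ1 x, map_zero] at h1
        exact h1) }
  have hdg : ∀ x : Σ i, κ i, (B x.1).dg x.2 ≤ 2 * d := by
    intro x
    by_contra hcon
    push Not at hcon
    have h1 := (B x.1).gr x.2
    rw [W.gr_eq_bot (X x.1) _ (by have := hd x.1; omega)] at h1
    exact (B x.1).ne x.2 ((Submodule.mem_bot _).1 h1)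
  have hcard : Fintype.card (Σ i, κ i) = ∑ i, Module.finrank W.K (W.H (X i)) := by
    rw [Fintype.card_sigma]
    exact Finset.sum_congr rfl fun i _ => Fintype.card_fin _
  refine tate_of_few D (τ : L₀ →+* W.K) hβ2 (M := m * (2 * d)) (fun g x => D.abs_coef hdg g x)
    (le_of_eq ?_) hZ H c
  rw [hcard, bound, enough]
  congr 3
  ring

end Pool.Agent.V1141.FD
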