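import Pool.Agent.V1141.FD.Word

/-!
# Few factors are enough
-/

set_option autoImplicit false
set_option linter.unusedSectionVars false

open CategoryTheory AlgebraicGeometry Polynomial
open scoped TensorProduct

universe u v

namespace Pool.Agent.V1141.FD

open Pool.Agent.H914 Pool.Agent.H914.VarClass Pool.Agent.H914.VarClass.Obj
  Pool.Agent.H914.WeilCohomology Pool.Agent.H281R3.HT Pool.Agent.W552 Pool.Agent.W534
  Pool.Agent.W458.RK Pool.Agent.W458.MF Pool.Agent.TH132.A Pool.Agent.W536.RR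
  Pool.Agent.TH121.KT

variable {k : Type u} [Field k] {𝒱 : VarClass k} {ops : CycleOps 𝒱}
  {W : WeilCohomology.{u, v} ops} {p : ℕ} [Fact p.Prime] {Φ : FrobSystem W p}
  {r : ℕ} {X : Fin r → 𝒱.Obj} {κ : Fin r → Type} {B : ∀ i, EB Φ (X i) (κ i)}
  {Z Z' : 𝒱.Obj}

lemma Lt.pull_pull {Z'' : 𝒱.Obj} (g : Z' ⟶ Z) (h : Z'' ⟶ Z') (l : Lt B Z) :
    (l.pull g).pull h = l.pull (h ≫ g) := by
  simp [Lt.pull]

/-- a word comes from the product of the varieties of its letters -/
lemma exists_univ (L : List (Lt B Z)) : ∀ l : Lt B Z, ∃ (Z₁ : 𝒱.Obj) (g : Z ⟶ Z₁)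
    (U : List (Lt B Z₁)), Z₁ = prodList X l.i (L.map Lt.i) ∧ U.map (Lt.pull g) = l :: L := by
  induction L with
  | nil =>
    intro l
    refine ⟨X l.i, l.f, [⟨l.i, 𝟙 _, l.k⟩], rfl, ?_⟩
    obtain ⟨i, f, k⟩ := l
    rw [List.map_cons, List.map_nil]
    have h1 : Lt.pull f (⟨i, 𝟙 (X i), k⟩ : Lt B (X i)) = ⟨i, f, k⟩ := by
      simp [Lt.pull]
    rw [h1]
  | cons l' L ih =>
    intro l
    obtain ⟨Z₁, g', U', hZ₁, h⟩ := ih l'
    refine ⟨(X l.i).prod Z₁, lift l.f g', ⟨l.i, fst _ _, l.k⟩ :: U'.map (Lt.pull (snd _ _)), ?_, ?_⟩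
    · rw [hZ₁]
      rfl
    · rw [List.map_cons, List.map_map, ← h]
      congr 1
      · obtain ⟨i, f, k⟩ := l
        simp only [Lt.pull]
        congr 1
        exact lift_fst _ _
      · refine List.map_congr_left fun u _ => ?_
        change (u.pull (snd _ _)).pull (lift l.f g') = u.pull g'
        rw [Lt.pull_pull, lift_snd]

variable [∀ i, Fintype (κ i)] {L₀ : Type} [Field L₀] [Algebra ℚ L₀] [FiniteDimensional ℚ L₀]
  [IsGalois ℚ L₀] {m : ℕ} {e : L₀ →ₐ[ℚ] PadicAlgCl p} {β : (Σ i, κ i) → L₀}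

/-- the product of the degrees of the fields of definition -/
def totE (Φ : FrobSystem W p) (X : Fin r → 𝒱.Obj) : ℕ := ∏ i, Φ.e (X i)

def coE (Φ : FrobSystem W p) (X : Fin r → 𝒱.Obj) (i : Fin r) : ℕ :=
  ∏ j ∈ Finset.univ.erase i, Φ.e (X j)

lemma e_mul_coE (i : Fin r) : Φ.e (X i) * coE Φ X i = totE Φ X :=
  Finset.mul_prod_erase Finset.univ (fun j => Φ.e (X j)) (Finset.mem_univ i)

lemma totE_pos : 0 < totE Φ X := Finset.prod_pos fun _ _ => Φ.e_pos _

lemma exists_of_mult {L : List (Lt B Z)} {x : Σ i, κ i} (h : mult L x ≠ 0) :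
    ∃ l ∈ L, l.label = x := by
  classical
  have h1 : x ∈ L.map Lt.label := by
    by_contra hcon
    exact h (List.count_eq_zero_of_not_mem hcon)
  obtain ⟨l, hl, hx⟩ := List.mem_map.1 h1
  exact ⟨l, hl, hx⟩

/-- the eigenvalue of a word, to the power `E` -/
lemma eigen_pow {s : ℕ} (L : List (Lt B Z)) (hL : ∀ l ∈ L, l.At s) :
    ((L.map fun l => (B l.i).ev l.k ^ lev Φ X Z s l.i).prod) ^ totE Φ X =
      (∏ x : Σ i, κ i, (B x.1).ev x.2 ^ (coE Φ X x.1 * mult L x)) ^ (s * Φ.e Z) := by
  have h1 : (L.map fun l => (B l.i).ev l.k ^ lev Φ X Z s l.i).prod =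
      ∏ x : Σ i, κ i, ((B x.1).ev x.2 ^ lev Φ X Z s x.1) ^ mult L x :=
    prod_map (fun x : Σ i, κ i => (B x.1).ev x.2 ^ lev Φ X Z s x.1) L
  rw [h1, ← Finset.prod_pow, ← Finset.prod_pow]
  refine Finset.prod_congr rfl fun x _ => ?_
  by_cases h0 : mult L x = 0
  · rw [h0, pow_zero, one_pow, mul_zero, pow_zero, one_pow]
  · obtain ⟨l, hl, rfl⟩ := exists_of_mult h0
    have h2 := At_lev (hL l hl)
    rw [← pow_mul, ← pow_mul, ← pow_mul, ← e_mul_coE (Φ := Φ) (X := X) l.i]
    congr 1
    change lev Φ X Z s l.i * (mult L l.label * (Φ.e (X l.i) * coE Φ X l.i)) =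
      coE Φ X l.i * mult L l.label * (s * Φ.e Z)
    rw [← h2]
    ring

variable (D : Dat p m e β (fun x => (B x.1).dg x.2) (fun x => Φ.e (X x.1)))
  (τ : L₀ →+* W.K) (hτ : ∀ x, τ (β x) = (B x.1).ev x.2)

include hτ in
/-- a short word with a relation is algebraic -/
theorem small_alg (L : List (Lt B Z)) (l : Lt B Z)
    (H : ∀ c, SemisimpleTateIn Φ (prodList X l.i (L.map Lt.i)) c)
    (hrel : ∀ g, ∑ x, D.coef g x * mult (l :: L) x = 0) (heven : Even (deg (l :: L))) :
    wordVal (l :: L) ∈ algSpan W Z := by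
  obtain ⟨Z₁, g, U, hZ₁, hU⟩ := exists_univ L l
  rw [← hZ₁] at H
  rw [← hU, wordVal_pull]
  refine algSpan_map _ ?_
  have hmult : ∀ x, mult (l :: L) x = mult U x := by
    intro x
    rw [← hU, mult_pull]
  have hdeg : deg (l :: L) = deg U := by
    rw [deg_eq, deg_eq]
    exact Finset.sum_congr rfl fun x _ => by rw [hmult]
  obtain ⟨c, hc⟩ := heven
  rw [hdeg] at hc
  obtain ⟨N, hN, h1⟩ := D.rel_of_eqs (E := totE Φ X) (E' := fun x => coE Φ X x.1)
    (fun x => e_mul_coE x.1) (mult U) (fun g => by simpa only [hmult] using hrel g)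
  rw [← deg_eq, hc] at h1
  have h2 := congrArg τ h1
  simp only [map_pow, map_prod, hτ, map_natCast] at h2
  obtain ⟨a, ha, hat⟩ := word_level U
  have hat' := hat 1 one_pos
  rw [mul_one] at hat'
  have h3 := word_gen U hat'
  have h4 := eigen_pow U hat'
  set ω := (U.map fun l => (B l.i).ev l.k ^ lev Φ X Z₁ a l.i).prod with hω
  have h5 : ω ^ (totE Φ X * (2 * N)) = (card Φ Z₁ (a * (totE Φ X * (2 * N))) : W.K) ^ c := by
    have h6 : (∏ x : Σ i, κ i, (B x.1).ev x.2 ^ (coE Φ X x.1 * mult U x)) ^ 2 =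
        ∏ x : Σ i, κ i, (B x.1).ev x.2 ^ (2 * (coE Φ X x.1 * mult U x)) := by
      rw [← Finset.prod_pow]
      exact Finset.prod_congr rfl fun x _ => by rw [← pow_mul, mul_comm _ 2]
    rw [← h6] at h2
    have h7 : ω ^ (totE Φ X * (2 * N)) =
        ((((∏ x : Σ i, κ i, (B x.1).ev x.2 ^ (coE Φ X x.1 * mult U x)) ^ 2) ^ N) ^
          (a * Φ.e Z₁)) := by
      rw [pow_mul, h4, ← pow_mul, ← pow_mul, ← pow_mul]
      congr 1
      ring
    rw [h7, h2, card_pow, ← pow_mul, ← pow_mul]
    congr 1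
    ring
  have h6 : wordVal U ∈ genTate Φ Z₁ (a * (totE Φ X * (2 * N))) c := by
    refine ⟨?_, ?_⟩
    · rw [← h5]
      have h7 := gen_pow_of_gen h3 (totE Φ X * (2 * N))
      rw [← frob_mul_eq] at h7
      exact h7
    · have h7 := wordVal_mem U
      rwa [hc, ← two_mul] at h7
  exact Pool.Agent.W397.MF.spanCycles_le_algSpan _ (H c _
    (Nat.mul_pos ha (Nat.mul_pos totE_pos (Nat.mul_pos two_pos hN))) h6)

include hτ in
/-- **All words with relations are algebraic** if the words with few letters are. -/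
theorem word_alg {M N : ℕ} (hM : ∀ g x, |D.coef g x| ≤ M)
    (hN : bound (Fintype.card (Σ i, κ i)) M ≤ N) {n : Fin r → ℕ}
    (H : ∀ (i : Fin r) (I : List (Fin r)), I.length + 1 ≤ N → (∀ j, (i :: I).count j ≤ n j) →
      ∀ c, SemisimpleTateIn Φ (prodList X i I) c) :
    ∀ (len : ℕ) (L : List (Lt B Z)), L.length ≤ len → (∀ j, (L.map Lt.i).count j ≤ n j) →
      (∀ g, ∑ x, D.coef g x * mult L x = 0) → Even (deg L) → wordVal L ∈ algSpan W Z := by
  intro len
  induction len with
  | zero =>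
    intro L hL _ _ _
    rw [List.length_eq_zero_iff.1 (Nat.le_zero.1 hL), wordVal_nil]
    exact one_mem_algSpan
  | succ len ih =>
    intro L hL hn hrel heven
    rcases L with _ | ⟨l, L⟩
    · rw [wordVal_nil]
      exact one_mem_algSpan
    by_cases hlen : L.length + 1 ≤ N
    · refine small_alg D τ hτ L l (H l.i (L.map Lt.i) ?_ hn) hrel heven
      rwa [List.length_map]
    · have hbig : bound (Fintype.card (Σ i, κ i)) M < ∑ x, mult (l :: L) x := by
        rw [sum_mult, List.length_cons]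
        omega
      obtain ⟨n', hle, hpos, hsmall, hrel', heven'⟩ :=
        exists_small (D.coef) hM (fun x => (B x.1).dg x.2) (mult (l :: L)) hrel hbig
      obtain ⟨L₁, L₂, hperm, hmult⟩ := exists_split (l :: L) n' hle
      have hlen₁ : L₁.length = ∑ x, n' x := by
        rw [← sum_mult]
        exact Finset.sum_congr rfl fun x _ => hmult x
      have hlen₂ : L₁.length + L₂.length = L.length + 1 := by
        rw [← List.length_append, ← hperm.length_eq, List.length_cons]
      have hcount : ∀ j, (L₁.map Lt.i).count j + (L₂.map Lt.i).count j ≤ n j := by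
        intro j
        rw [← List.count_append, ← List.map_append, ← (hperm.map Lt.i).count_eq]
        exact hn j
      have hmm : ∀ x, mult L₁ x + mult L₂ x = mult (l :: L) x := by
        intro x
        rw [← mult_append, mult_perm hperm]
      have hdd : deg L₁ + deg L₂ = deg (l :: L) := by
        rw [deg_eq, deg_eq, deg_eq, ← Finset.sum_add_distrib]
        exact Finset.sum_congr rfl fun x _ => by rw [← hmm, add_mul]
      have he₁ : Even (deg L₁) := by
        rw [deg_eq, Finset.sum_congr rfl fun x _ => by rw [hmult]]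
        exact heven'
      have hr₁ : ∀ g, ∑ x, D.coef g x * mult L₁ x = 0 := by
        intro g
        rw [Finset.sum_congr rfl fun x _ => by rw [hmult]]
        exact hrel' g
      rw [List.length_cons] at hL
      have h1 : wordVal L₁ ∈ algSpan W Z := by
        refine ih L₁ (by omega) (fun j => by have := hcount j; omega) hr₁ he₁
      have h2 : wordVal L₂ ∈ algSpan W Z := by
        refine ih L₂ (by omega) (fun j => by have := hcount j; omega) (fun g => ?_) ?_
        · have h3 := hrel g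
          have h4 : ∑ x, D.coef g x * (mult (l :: L) x : ℤ) =
              ∑ x, D.coef g x * (mult L₁ x : ℤ) + ∑ x, D.coef g x * (mult L₂ x : ℤ) := by
            rw [← Finset.sum_add_distrib]
            refine Finset.sum_congr rfl fun x _ => ?_
            rw [← hmm]
            push_cast
            ring
          rw [h4, hr₁ g, zero_add] at h3
          exact h3
        · rw [← hdd] at heven
          exact (Nat.even_add.1 heven).1 he₁
      obtain ⟨c, hc⟩ := wordVal_perm hperm
      rw [hc, wordVal_append]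
      exact Submodule.smul_mem _ _ (algSpan_mul h1 h2)

end Pool.Agent.V1141.FD
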