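import Pool.Agent.V1141.FD.Defs
import Pool.Agent.V1141.FD.Arith
import Pool.Agent.V1141.SL.RH

/-!
# Words of generalised eigenvectors in the cohomology of products
-/

set_option autoImplicit false
set_option linter.unusedSectionVars false

open CategoryTheory AlgebraicGeometry Polynomial
open scoped TensorProduct

universe u v

namespace Pool.Agent.V1141.FD

open Pool.Agent.H914 Pool.Agent.H914.VarClass Pool.Agent.H914.VarClass.Obj
  Pool.Agent.H914.WeilCohomology Pool.Agent.H281R3.HT Pool.Agent.W552 Pool.Agent.W534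
  Pool.Agent.W458.RK Pool.Agent.W458.MF Pool.Agent.TH132.A Pool.Agent.W536.RR
  Pool.Agent.TH121.KT

variable {k : Type u} [Field k] {𝒱 : VarClass k} {ops : CycleOps 𝒱}
  {W : WeilCohomology.{u, v} ops} {p : ℕ} {Φ : FrobSystem W p}

/-- A basis of homogeneous generalised eigenvectors. -/
structure EB (Φ : FrobSystem W p) (X : 𝒱.Obj) (κ : Type) where
  v : κ → W.H X
  dg : κ → ℕ
  ev : κ → W.K
  gr : ∀ k, v k ∈ W.gr X (dg k)
  gen : ∀ k, v k ∈ (frob Φ X 1).maxGenEigenspace (ev k)
  ne : ∀ k, v k ≠ 0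
  span : Submodule.span W.K (Set.range v) = ⊤

/-- existence of the bases -/
theorem exists_EB [IsAlgClosed W.K] (Φ : FrobSystem W p) (X : 𝒱.Obj) :
    Nonempty (EB Φ X (Fin (Module.finrank W.K (W.H X)))) := by
  classical
  let S : Set (W.H X) := {v | ∃ (c : ℕ) (μ : W.K), v ∈ W.gr X c ∧
    v ∈ (frob Φ X 1).maxGenEigenspace μ}
  have hS : Submodule.span W.K S = ⊤ := by
    rw [eq_top_iff]
    intro x _
    refine gr_induction (W.isInternal X) (p := fun x => x ∈ Submodule.span W.K S) ?_ ?_ x
    · intro c x hx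
      refine Submodule.span_mono ?_ (SL.gr_span_gen (Φ := Φ) 1 c x hx)
      rintro v ⟨hv, μ, hμ⟩
      exact ⟨c, μ, hv, hμ⟩
    · intro a b ha hb
      exact Submodule.add_mem _ ha hb
  obtain ⟨b, hbS, hspan, hli⟩ := exists_linearIndependent W.K S
  have hfin : b.Finite := hli.setFinite
  have : Fintype b := hfin.fintype
  have hb : ⊤ ≤ Submodule.span W.K (Set.range (Subtype.val : b → W.H X)) := by
    rw [Subtype.range_coe, hspan, hS]
  let B := Module.Basis.mk hli hb
  have hcard : Fintype.card b = Module.finrank W.K (W.H X) :=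
    (Module.finrank_eq_card_basis B).symm
  let eq : Fin (Module.finrank W.K (W.H X)) ≃ b := (Fintype.equivFinOfCardEq hcard).symm
  choose c μ hc hμ using fun k : Fin (Module.finrank W.K (W.H X)) => hbS (eq k).2
  refine ⟨⟨fun k => (eq k : W.H X), c, μ, hc, hμ, fun k => hli.ne_zero (eq k), ?_⟩⟩
  rw [eq_top_iff, ← hS, ← hspan]
  refine Submodule.span_mono ?_
  intro x hx
  exact ⟨eq.symm ⟨x, hx⟩, by simp⟩

variable {r : ℕ} {X : Fin r → 𝒱.Obj} {κ : Fin r → Type} {B : ∀ i, EB Φ (X i) (κ i)}
  {Z Z' : 𝒱.Obj}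

/-- a pulled back basis vector -/
structure Lt (B : ∀ i, EB Φ (X i) (κ i)) (Z : 𝒱.Obj) where
  i : Fin r
  f : Z ⟶ X i
  k : κ i

namespace Lt

/-- the class -/
noncomputable def val (l : Lt B Z) : W.H Z := W.map l.f ((B l.i).v l.k)

/-- the label -/
def label (l : Lt B Z) : Σ i, κ i := ⟨l.i, l.k⟩

/-- pull-back of letters -/
noncomputable def pull (g : Z' ⟶ Z) (l : Lt B Z) : Lt B Z' := ⟨l.i, g ≫ l.f, l.k⟩

lemma val_pull (g : Z' ⟶ Z) (l : Lt B Z) : (l.pull g).val = W.map g l.val :=
  W.map_comp g l.f _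

lemma val_mem (l : Lt B Z) : l.val ∈ W.gr Z ((B l.i).dg l.k) := W.map_mem _ ((B l.i).gr l.k)

/-- the level `s` is good for the letter -/
def At (l : Lt B Z) (s : ℕ) : Prop :=
  ∃ s' : ℕ, 0 < s' ∧ s' * Φ.e (X l.i) = s * Φ.e Z ∧
    l.val ∈ (frob Φ Z s).maxGenEigenspace ((B l.i).ev l.k ^ s')

lemma exists_at (l : Lt B Z) : ∃ a : ℕ, 0 < a ∧ ∀ t, 0 < t → l.At (a * t) := by
  obtain ⟨i, f, k⟩ := l
  obtain ⟨a, ha, h⟩ := exists_comm Φ f
  refine ⟨a, ha, fun t ht => ?_⟩
  obtain ⟨s', hs', hss, hcomm⟩ := h t ht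
  refine ⟨s', hs', hss, ?_⟩
  have h1 := gen_pow_of_gen ((B i).gen k) s'
  rw [← frob_mul_eq, one_mul] at h1
  have h2 := gen_map (T := frob Φ (X i) s') (T' := frob Φ Z (a * t))
    (θ := (W.map f).toLinearMap) (c := 1) (fun x => by
      rw [one_smul]
      exact hcomm x) h1
  rw [one_mul] at h2
  exact h2

end Lt

/-- the class of a list of letters -/
noncomputable def wordVal (L : List (Lt B Z)) : W.H Z := (L.map Lt.val).prod

lemma wordVal_nil : wordVal ([] : List (Lt B Z)) = 1 := rfl

lemma wordVal_cons (a : Lt B Z) (L : List (Lt B Z)) :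
    wordVal (a :: L) = a.val * wordVal L := by
  rw [wordVal, List.map_cons, List.prod_cons]
  rfl

lemma wordVal_append (L L' : List (Lt B Z)) :
    wordVal (L ++ L') = wordVal L * wordVal L' := by
  rw [wordVal, List.map_append, List.prod_append]
  rfl

/-- the degree of a word -/
def deg (L : List (Lt B Z)) : ℕ := (L.map fun l => (B l.i).dg l.k).sum

lemma wordVal_mem (L : List (Lt B Z)) : wordVal L ∈ W.gr Z (deg L) := by
  induction L with
  | nil => exact W.one_mem Z
  | cons a L ih =>
    rw [wordVal_cons, deg, List.map_cons, List.sum_cons]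
    exact W.mul_mem a.val_mem ih

lemma wordVal_pull (g : Z' ⟶ Z) (L : List (Lt B Z)) :
    wordVal (L.map (Lt.pull g)) = W.map g (wordVal L) := by
  induction L with
  | nil => rw [List.map_nil, wordVal_nil, wordVal_nil, map_one]
  | cons a L ih => rw [List.map_cons, wordVal_cons, wordVal_cons, map_mul, ih, Lt.val_pull]

/-- permutation of the letters -/
lemma wordVal_perm {L L' : List (Lt B Z)} (h : L.Perm L') :
    ∃ c : W.K, wordVal L = c • wordVal L' := by
  induction h with
  | nil => exact ⟨1, by rw [one_smul]⟩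
  | cons a _ ih =>
    obtain ⟨c, hc⟩ := ih
    exact ⟨c, by rw [wordVal_cons, wordVal_cons, hc, mul_smul_comm]⟩
  | swap a b L =>
    refine ⟨(-1) ^ ((B b.i).dg b.k * (B a.i).dg a.k), ?_⟩
    rw [wordVal_cons, wordVal_cons, wordVal_cons, wordVal_cons, ← mul_assoc,
      W.comm b.val_mem a.val_mem, smul_mul_assoc, mul_assoc]
  | trans _ _ ih ih' =>
    obtain ⟨c, hc⟩ := ih
    obtain ⟨c', hc'⟩ := ih'
    exact ⟨c * c', by rw [hc, hc', smul_smul]⟩

/-- the exponent of the eigenvalues at the level `s` -/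
def lev (Φ : FrobSystem W p) (X : Fin r → 𝒱.Obj) (Z : 𝒱.Obj) (s : ℕ) (i : Fin r) : ℕ :=
  s * Φ.e Z / Φ.e (X i)

/-- a word is a generalised eigenvector -/
lemma word_gen {s : ℕ} (L : List (Lt B Z)) (hL : ∀ l ∈ L, l.At s) :
    wordVal L ∈ (frob Φ Z s).maxGenEigenspace
      (L.map fun l => (B l.i).ev l.k ^ lev Φ X Z s l.i).prod := by
  induction L with
  | nil =>
    refine eig_mem_gen ?_
    rw [wordVal_nil, frob_one, List.map_nil, List.prod_nil, one_smul]
  | cons a L ih =>
    have h1 := ih fun l hl => hL l (List.mem_cons_of_mem _ hl)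
    obtain ⟨s', hs', hss, h2⟩ := hL a List.mem_cons_self
    have h3 : lev Φ X Z s a.i = s' := by
      rw [lev, ← hss, Nat.mul_div_cancel _ (Φ.e_pos _)]
    rw [wordVal_cons, List.map_cons, List.prod_cons, h3]
    exact gen_mul (T := frob Φ Z s) (T' := frob Φ Z s) (T'' := frob Φ Z s)
      (LinearMap.mul W.K (W.H Z)) (fun x y => frob_mul_apply Φ s x y) h2 h1

/-- a good level for a word -/
lemma word_level (L : List (Lt B Z)) : ∃ a : ℕ, 0 < a ∧ ∀ t, 0 < t → ∀ l ∈ L, l.At (a * t) := by
  induction L with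
  | nil => exact ⟨1, one_pos, fun t _ l hl => absurd hl List.not_mem_nil⟩
  | cons b L ih =>
    obtain ⟨a, ha, h⟩ := ih
    obtain ⟨a', ha', h'⟩ := b.exists_at
    refine ⟨a * a', Nat.mul_pos ha ha', fun t ht l hl => ?_⟩
    rcases List.mem_cons.1 hl with rfl | hl
    · have := h' (a * t) (Nat.mul_pos ha ht)
      rwa [show a' * (a * t) = a * a' * t by ring] at this
    · have := h (a' * t) (Nat.mul_pos ha' ht) l hl
      rwa [← mul_assoc] at this

lemma At_lev {s : ℕ} {l : Lt B Z} (h : l.At s) :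
    lev Φ X Z s l.i * Φ.e (X l.i) = s * Φ.e Z := by
  obtain ⟨s', hs', hss, -⟩ := h
  rw [lev, ← hss, Nat.mul_div_cancel _ (Φ.e_pos _)]

section Count

variable [∀ i, Fintype (κ i)]

open Classical in
/-- the multiplicities -/
noncomputable def mult (L : List (Lt B Z)) (x : Σ i, κ i) : ℕ := (L.map Lt.label).count x

lemma mult_nil (x : Σ i, κ i) : mult ([] : List (Lt B Z)) x = 0 := by
  classical
  rw [mult, List.map_nil, List.count_nil]

open Classical in
lemma mult_cons (a : Lt B Z) (L : List (Lt B Z)) (x : Σ i, κ i) :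
    mult (a :: L) x = mult L x + if a.label = x then 1 else 0 := by
  rw [mult, List.map_cons, List.count_cons]
  simp only [beq_iff_eq]
  rfl

lemma mult_append (L L' : List (Lt B Z)) (x : Σ i, κ i) :
    mult (L ++ L') x = mult L x + mult L' x := by
  classical
  rw [mult, List.map_append, List.count_append]
  rfl

lemma mult_pull (g : Z' ⟶ Z) (L : List (Lt B Z)) (x : Σ i, κ i) :
    mult (L.map (Lt.pull g)) x = mult L x := by
  rw [mult, List.map_map]
  rfl

lemma mult_perm {L L' : List (Lt B Z)} (h : L.Perm L') (x : Σ i, κ i) :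
    mult L x = mult L' x := by
  classical
  exact (h.map Lt.label).count_eq x

lemma sum_mult (L : List (Lt B Z)) : ∑ x, mult L x = L.length := by
  classical
  induction L with
  | nil => exact Finset.sum_eq_zero fun x _ => mult_nil x
  | cons a L ih =>
    rw [Finset.sum_congr rfl fun x _ => mult_cons a L x, Finset.sum_add_distrib, ih,
      Finset.sum_ite_eq, if_pos (Finset.mem_univ _), List.length_cons]

lemma deg_eq (L : List (Lt B Z)) : deg L = ∑ x, mult L x * (B x.1).dg x.2 := by
  classical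
  induction L with
  | nil =>
    rw [deg, List.map_nil, List.sum_nil]
    exact (Finset.sum_eq_zero fun x _ => by rw [mult_nil, zero_mul]).symm
  | cons a L ih =>
    rw [deg, List.map_cons, List.sum_cons]
    have h1 : ∀ x : Σ i, κ i, mult (a :: L) x * (B x.1).dg x.2 = mult L x * (B x.1).dg x.2 +
        if a.label = x then (B x.1).dg x.2 else 0 := by
      intro x
      rw [mult_cons, add_mul, ite_mul, one_mul, zero_mul]
    rw [Finset.sum_congr rfl fun x _ => h1 x, Finset.sum_add_distrib, ← ih,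
      Finset.sum_ite_eq, if_pos (Finset.mem_univ _), add_comm]
    rfl

lemma prod_map (F : (Σ i, κ i) → W.K) (L : List (Lt B Z)) :
    (L.map fun l => F l.label).prod = ∏ x, F x ^ mult L x := by
  classical
  have h1 : (L.map fun l => F l.label) = (L.map Lt.label).map F := by
    rw [List.map_map]
    rfl
  rw [h1, Finset.prod_list_map_count, Finset.prod_subset (Finset.subset_univ _)]
  · rfl
  · intro x _ hx
    rw [List.mem_toFinset] at hx
    rw [List.count_eq_zero_of_not_mem hx, pow_zero]

/-- a part of a word with given multiplicities -/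
lemma exists_split (L : List (Lt B Z)) : ∀ n : (Σ i, κ i) → ℕ, (∀ x, n x ≤ mult L x) →
    ∃ L₁ L₂ : List (Lt B Z), L.Perm (L₁ ++ L₂) ∧ ∀ x, mult L₁ x = n x := by
  classical
  induction L with
  | nil =>
    intro n hn
    refine ⟨[], [], List.Perm.refl _, fun x => ?_⟩
    have h1 := hn x
    rw [mult_nil] at h1 ⊢
    omega
  | cons a L ih =>
    intro n hn
    by_cases h0 : n a.label = 0
    · obtain ⟨L₁, L₂, h1, h2⟩ := ih n fun x => by
        have h1 := hn x
        rw [mult_cons] at h1
        by_cases hx : a.label = x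
        · rw [← hx, h0]
          exact Nat.zero_le _
        · rwa [if_neg hx, add_zero] at h1
      refine ⟨L₁, a :: L₂, ?_, h2⟩
      exact (h1.cons a).trans List.perm_middle.symm
    · obtain ⟨L₁, L₂, h1, h2⟩ := ih (fun x => n x - if a.label = x then 1 else 0) fun x => by
        have h1 := hn x
        rw [mult_cons] at h1
        omega
      refine ⟨a :: L₁, L₂, ?_, fun x => ?_⟩
      · exact h1.cons a
      · rw [mult_cons, h2]
        by_cases hx : a.label = x
        · rw [if_pos hx]
          rw [← hx]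
          omega
        · rw [if_neg hx]
          omega

end Count

end Pool.Agent.V1141.FD
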